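import Pool.Agent.Helper15.GE.Gale

set_option autoImplicit false

/-!
Project GE (MP_ffd2c1_ag).  If the cubic `det B + l₀ l₁ l₂ = 0` is smooth, the linear forms `lᵢ` are not
zero: determinantal cubics of dimension four are singular.
-/

namespace Pool.Agent.Helper69.GE

open MvPolynomial Module Matrix Pool.Agent.Helper16 Pool.Agent.Helper15.GE

variable {B : Matrix (Fin 3) (Fin 3) (MvPolynomial (Fin 6) ℂ)}
  {l : Fin 3 → MvPolynomial (Fin 6) ℂ}

/-- two linear maps between three dimensional spaces: some combination is not injective -/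
theorem exists_pencil (M N : Matrix (Fin 3) (Fin 3) ℂ) :
    ∃ (s t : ℂ) (x : Fin 3 → ℂ), (s ≠ 0 ∨ t ≠ 0) ∧ x ≠ 0 ∧
      s • M.mulVec x + t • N.mulVec x = 0 := by
  by_cases hN : N.det = 0
  · obtain ⟨x, hx, h⟩ := Matrix.exists_mulVec_eq_zero_iff.mpr hN
    exact ⟨0, 1, x, Or.inr one_ne_zero, hx, by rw [h]; simp⟩
  · have hu : IsUnit N.det := isUnit_iff_ne_zero.mpr hN
    obtain ⟨c, hc⟩ := Module.End.exists_eigenvalue (Matrix.toLin' (N⁻¹ * M))
    obtain ⟨x, hx⟩ := hc.exists_hasEigenvector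
    have h1 := hx.apply_eq_smul
    rw [Matrix.toLin'_apply] at h1
    have h2 : M.mulVec x = c • N.mulVec x := by
      have h3 := congrArg N.mulVec h1
      rw [Matrix.mulVec_mulVec, ← Matrix.mul_assoc, Matrix.mul_nonsing_inv _ hu, Matrix.one_mul,
        Matrix.mulVec_smul] at h3
      exact h3
    refine ⟨1, -c, x, Or.inl one_ne_zero, hx.2, ?_⟩
    rw [h2, one_smul, neg_smul, add_neg_cancel]

/-- a linear form as a linear map -/
noncomputable def lf (G : MvPolynomial (Fin 6) ℂ) : (Fin 6 → ℂ) →ₗ[ℂ] ℂ :=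
  ∑ a, (eval (Pi.single a 1) G) • LinearMap.proj a

theorem lf_apply {G : MvPolynomial (Fin 6) ℂ} (hG : G.IsHomogeneous 1) (x : Fin 6 → ℂ) :
    lf G x = eval x G := by
  have h1 := aeval_linear hG (K := ℂ) x
  rw [aeval_eq_eval] at h1
  rw [h1, lf, LinearMap.sum_apply]
  rfl

theorem exists_rank_one (hB : ∀ i j, (B i j).IsHomogeneous 1) :
    ∃ (x : Fin 6 → ℂ) (s t : ℂ), x ≠ 0 ∧ (s ≠ 0 ∨ t ≠ 0) ∧ (∀ i, eval x (B i 0) = 0) ∧
      ∀ i, s * eval x (B i 1) + t * eval x (B i 2) = 0 := by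
  let f : (Fin 6 → ℂ) →ₗ[ℂ] (Fin 3 → ℂ) := LinearMap.pi fun i => lf (B i 0)
  have h1 := LinearMap.finrank_range_add_finrank_ker f
  have h2 : finrank ℂ (LinearMap.range f) ≤ 3 := by
    have := Submodule.finrank_le (LinearMap.range f)
    simpa using this
  rw [Module.finrank_fin_fun] at h1
  have h3 : 3 ≤ finrank ℂ (LinearMap.ker f) := by omega
  obtain ⟨v, hv⟩ := exists_linearIndependent_of_le_finrank h3
  let g : Fin 3 → (Fin 6 → ℂ) := fun j => (v j : Fin 6 → ℂ)
  have hg : LinearIndependent ℂ g := hv.map' (LinearMap.ker f).subtype (Submodule.ker_subtype _)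
  have hgf : ∀ j i, lf (B i 0) (g j) = 0 := by
    intro j i
    have h4 : f (g j) = 0 := (v j).2
    exact congrFun h4 i
  obtain ⟨s, t, y, hst, hy, hsy⟩ := exists_pencil
    (Matrix.of fun i j => lf (B i 1) (g j)) (Matrix.of fun i j => lf (B i 2) (g j))
  have hx : ∀ k i, lf (B i k) (∑ j, y j • g j) = ∑ j, lf (B i k) (g j) * y j := by
    intro k i
    rw [map_sum]
    refine Finset.sum_congr rfl fun j _ => ?_
    rw [map_smul, smul_eq_mul, mul_comm]
  refine ⟨∑ j, y j • g j, s, t, ?_, hst, ?_, ?_⟩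
  · intro h0
    exact hy (funext (Fintype.linearIndependent_iff.mp hg y h0))
  · intro i
    rw [← lf_apply (hB i 0), hx]
    exact Finset.sum_eq_zero fun j _ => by rw [hgf, zero_mul]
  · intro i
    rw [← lf_apply (hB i 1), ← lf_apply (hB i 2), hx, hx]
    exact congrFun hsy i

/-- a determinantal cubic fourfold is singular -/
theorem det_singular (hB : ∀ i j, (B i j).IsHomogeneous 1) :
    ∃ x : Fin 6 → ℂ, x ≠ 0 ∧ ∀ k, eval x (pderiv k B.det) = 0 := by
  obtain ⟨x, s, t, hx, hst, h0, h1⟩ := exists_rank_one hB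
  refine ⟨x, hx, fun k => ?_⟩
  have hmin : ∀ i j, eval x (B i 1) * eval x (B j 2) - eval x (B j 1) * eval x (B i 2) = 0 := by
    intro i j
    rcases hst with hs | ht
    · apply mul_left_cancel₀ hs
      linear_combination (eval x (B j 2)) * h1 i - (eval x (B i 2)) * h1 j
    · apply mul_left_cancel₀ ht
      linear_combination (eval x (B i 1)) * h1 j - (eval x (B j 1)) * h1 i
  rw [Matrix.det_fin_three]
  simp only [map_add, map_sub, Derivation.leibniz, smul_eq_mul, map_mul, h0, zero_mul, zero_add,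
    mul_zero, add_zero]
  linear_combination (eval x (pderiv k (B 0 0))) * hmin 1 2 -
    (eval x (pderiv k (B 1 0))) * hmin 0 2 + (eval x (pderiv k (B 2 0))) * hmin 0 1

theorem ne_zero_of_smooth (h : Lin B l) (hs : Smooth (cubicP B l)) (i : Fin 3) : l i ≠ 0 := by
  intro hi
  obtain ⟨x, hx, hk⟩ := det_singular h.B
  obtain ⟨k, hk'⟩ := hs x hx
  apply hk'
  have h1 : cubicP B l = B.det := by
    rw [cubicP]
    fin_cases i
    · have h2 : l 0 = 0 := hi
      rw [h2]; ring
    · have h2 : l 1 = 0 := hi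
      rw [h2]; ring
    · have h2 : l 2 = 0 := hi
      rw [h2]; ring
  rw [h1]
  exact hk k

theorem ne_zero_of_smooth' (h : Lin B l) (hs : Smooth (cubicM B l)) (i : Fin 3) : l i ≠ 0 := by
  intro hi
  obtain ⟨x, hx, hk⟩ := det_singular h.B
  obtain ⟨k, hk'⟩ := hs x hx
  apply hk'
  have h1 : cubicM B l = B.det := by
    rw [cubicM]
    fin_cases i
    · have h2 : l 0 = 0 := hi
      rw [h2]; ring
    · have h2 : l 1 = 0 := hi
      rw [h2]; ring
    · have h2 : l 2 = 0 := hi
      rw [h2]; ring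
  rw [h1]
  exact hk k

end Pool.Agent.Helper69.GE
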