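import Pool.Agent.Helper15.GE.Gale

set_option autoImplicit false
set_option linter.unusedSimpArgs false

/-!
Project GE (MP_ffd2c1_ag).  Cubic fourfolds with a symplectic involution
`det A (x) + l₀ l₁ l₂ (x) + yᵀ A₂ₓ₂ (x) y = 0` as special cases of the cubics `det B + l₀ l₁ l₂ = 0`,
and their Gale duals, which are Eckardt cubics.
-/

namespace Pool.Agent.Helper69.GE

open MvPolynomial Module Matrix Pool.Agent.Helper16 Pool.Agent.Helper15.GE

/-! ### column operations -/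

section Col

variable {B B' : Matrix (Fin 3) (Fin 3) (MvPolynomial (Fin 6) ℂ)}
  {l l' : Fin 3 → MvPolynomial (Fin 6) ℂ}

/-- a matrix of constants -/
noncomputable def cm (P : Matrix (Fin 3) (Fin 3) ℂ) :
    Matrix (Fin 3) (Fin 3) (MvPolynomial (Fin 6) ℂ) := P.map C

theorem lin_mul (h : Lin B l) (P : Matrix (Fin 3) (Fin 3) ℂ) : Lin (B * cm P) l := by
  refine ⟨fun i j => ?_, h.l⟩
  rw [Matrix.mul_apply]
  refine IsHomogeneous.sum _ _ _ fun k _ => ?_
  rw [cm, Matrix.map_apply, mul_comm]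
  exact (h.B i k).C_mul _

theorem det_mul_cm {P : Matrix (Fin 3) (Fin 3) ℂ} (hP : P.det = 1) : (B * cm P).det = B.det := by
  have h1 : (cm P).det = C P.det := (RingHom.map_det (C : ℂ →+* MvPolynomial (Fin 6) ℂ) P).symm
  rw [Matrix.det_mul, h1, hP, map_one, mul_one]

theorem cubicP_mul {P : Matrix (Fin 3) (Fin 3) ℂ} (hP : P.det = 1) :
    cubicP (B * cm P) l = cubicP B l := by
  rw [cubicP, cubicP, det_mul_cm hP]

theorem cubicM_mul {P : Matrix (Fin 3) (Fin 3) ℂ} (hP : P.det = 1) :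
    cubicM (B * cm P) l = cubicM B l := by
  rw [cubicM, cubicM, det_mul_cm hP]

theorem eval_mul_cm (P : Matrix (Fin 3) (Fin 3) ℂ) (x : Fin 6 → ℂ) (i j : Fin 3) :
    eval x ((B * cm P) i j) = ((Matrix.of fun i j => eval x (B i j)) * P) i j := by
  rw [Matrix.mul_apply, map_sum, Matrix.mul_apply]
  refine Finset.sum_congr rfl fun k _ => ?_
  rw [map_mul, cm, Matrix.map_apply, eval_C]
  rfl

theorem sum_mul_eq_trace (M N : Matrix (Fin 3) (Fin 3) ℂ) :
    ∑ i, ∑ j, M i j * N i j = (Mᵀ * N).trace := by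
  rw [Finset.sum_comm]
  rfl

theorem dual_mul (hd : Dual B B' l l') {P Q : Matrix (Fin 3) (Fin 3) ℂ} (hPQ : Q * Pᵀ = 1) :
    Dual (B * cm P) (B' * cm Q) l l' := by
  intro x x'
  have h1 := hd x x'
  have h2 : ∑ i, ∑ j, eval x ((B * cm P) i j) * eval x' ((B' * cm Q) i j) =
      ∑ i, ∑ j, eval x (B i j) * eval x' (B' i j) := by
    simp only [eval_mul_cm]
    rw [sum_mul_eq_trace, Matrix.transpose_mul, Matrix.mul_assoc, Matrix.trace_mul_comm,
      Matrix.mul_assoc, Matrix.mul_assoc, hPQ, Matrix.mul_one, ← sum_mul_eq_trace]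
    rfl
  rw [h2]
  exact h1

end Col

/-! ### the cubics -/

/-- forms in the first four variables -/
noncomputable def r4 : MvPolynomial (Fin 4) ℂ →ₐ[ℂ] MvPolynomial (Fin 6) ℂ :=
  rename (Fin.castLE (by norm_num))

/-- forms in the first five variables -/
noncomputable def r5 : MvPolynomial (Fin 5) ℂ →ₐ[ℂ] MvPolynomial (Fin 6) ℂ :=
  rename Fin.castSucc

theorem eval_r4 (x : Fin 6 → ℂ) (p : MvPolynomial (Fin 4) ℂ) :
    eval x (r4 p) = eval (fun i => x (Fin.castLE (by norm_num) i)) p := by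
  rw [r4, eval_rename]
  rfl

theorem eval_r5 (x : Fin 6 → ℂ) (p : MvPolynomial (Fin 5) ℂ) :
    eval x (r5 p) = eval (fun i => x i.castSucc) p := by
  rw [r5, eval_rename]
  rfl

theorem r4_hom {p : MvPolynomial (Fin 4) ℂ} {n : ℕ} (h : p.IsHomogeneous n) :
    (r4 p).IsHomogeneous n := h.rename_isHomogeneous

theorem r5_hom {p : MvPolynomial (Fin 5) ℂ} {n : ℕ} (h : p.IsHomogeneous n) :
    (r5 p).IsHomogeneous n := h.rename_isHomogeneous

/-- `A (x) + [y₀, y₁, 0]`, the coordinates being `(x, y)` -/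
noncomputable def BA (A : Matrix (Fin 3) (Fin 3) (MvPolynomial (Fin 4) ℂ)) :
    Matrix (Fin 3) (Fin 3) (MvPolynomial (Fin 6) ℂ) :=
  A.map r4 + !![0, 0, X 5; 0, 0, -X 4; -X 5, X 4, 0]

/-- `A' (u) + [0, 0, t]`, the coordinates being `(u, t)` -/
noncomputable def BA' (A' : Matrix (Fin 3) (Fin 3) (MvPolynomial (Fin 5) ℂ)) :
    Matrix (Fin 3) (Fin 3) (MvPolynomial (Fin 6) ℂ) :=
  A'.map r5 + !![0, -X 5, 0; X 5, 0, 0; 0, 0, 0]

variable {A : Matrix (Fin 3) (Fin 3) (MvPolynomial (Fin 4) ℂ)} {l : Fin 3 → MvPolynomial (Fin 4) ℂ}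
  {A' : Matrix (Fin 3) (Fin 3) (MvPolynomial (Fin 5) ℂ)} {l' : Fin 3 → MvPolynomial (Fin 5) ℂ}

theorem cubicP_BA (hA : A.IsSymm) : cubicP (BA A) (fun i => r4 (l i)) =
    r4 (A.det + l 0 * l 1 * l 2) +
      (r4 (A 0 0) * X 4 ^ 2 + 2 * r4 (A 0 1) * X 4 * X 5 + r4 (A 1 1) * X 5 ^ 2) := by
  have h01 : A 1 0 = A 0 1 := hA.apply 0 1
  have h02 : A 2 0 = A 0 2 := hA.apply 0 2
  have h12 : A 2 1 = A 1 2 := hA.apply 1 2
  rw [cubicP, Matrix.det_fin_three, Matrix.det_fin_three, map_add, map_mul, map_mul, map_sub,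
    map_add, map_add, map_sub, map_sub]
  simp only [BA, Matrix.add_apply, Matrix.map_apply, Matrix.of_apply, Matrix.cons_val',
    Matrix.cons_val_zero, Matrix.cons_val_one, Matrix.cons_val_two, Matrix.head_cons,
    Matrix.tail_cons, Matrix.empty_val', Matrix.cons_val_fin_one, Matrix.head_fin_const, map_mul,
    Matrix.cons_val, h01, h02, h12]
  ring

theorem cubicM_BA' (hA : A'.IsSymm) : cubicM (BA' A') (fun i => r5 (l' i)) =
    r5 (A' 2 2) * X 5 ^ 2 + r5 (A'.det - l' 0 * l' 1 * l' 2) := by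
  have h01 : A' 1 0 = A' 0 1 := hA.apply 0 1
  have h02 : A' 2 0 = A' 0 2 := hA.apply 0 2
  have h12 : A' 2 1 = A' 1 2 := hA.apply 1 2
  rw [cubicM, Matrix.det_fin_three, Matrix.det_fin_three, map_sub, map_mul, map_mul, map_sub,
    map_add, map_add, map_sub, map_sub]
  simp only [BA', Matrix.add_apply, Matrix.map_apply, Matrix.of_apply, Matrix.cons_val',
    Matrix.cons_val_zero, Matrix.cons_val_one, Matrix.cons_val_two, Matrix.head_cons,
    Matrix.tail_cons, Matrix.empty_val', Matrix.cons_val_fin_one, Matrix.head_fin_const, map_mul,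
    Matrix.cons_val, h01, h02, h12]
  ring

theorem lin_BA (hA : ∀ i j, (A i j).IsHomogeneous 1) (hl : ∀ i, (l i).IsHomogeneous 1) :
    Lin (BA A) (fun i => r4 (l i)) := by
  refine ⟨fun i j => ?_, fun i => r4_hom (hl i)⟩
  rw [BA, Matrix.add_apply, Matrix.map_apply]
  refine (r4_hom (hA i j)).add ?_
  have h0 : (0 : MvPolynomial (Fin 6) ℂ).IsHomogeneous 1 := isHomogeneous_zero _ _ _
  have h4 : (X 4 : MvPolynomial (Fin 6) ℂ).IsHomogeneous 1 := isHomogeneous_X _ _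
  have h5 : (X 5 : MvPolynomial (Fin 6) ℂ).IsHomogeneous 1 := isHomogeneous_X _ _
  fin_cases i <;> fin_cases j <;> first | exact h0 | exact h4 | exact h5 | exact h4.neg | exact h5.neg

theorem lin_BA' (hA : ∀ i j, (A' i j).IsHomogeneous 1) (hl : ∀ i, (l' i).IsHomogeneous 1) :
    Lin (BA' A') (fun i => r5 (l' i)) := by
  refine ⟨fun i j => ?_, fun i => r5_hom (hl i)⟩
  rw [BA', Matrix.add_apply, Matrix.map_apply]
  refine (r5_hom (hA i j)).add ?_
  have h0 : (0 : MvPolynomial (Fin 6) ℂ).IsHomogeneous 1 := isHomogeneous_zero _ _ _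
  have h5 : (X 5 : MvPolynomial (Fin 6) ℂ).IsHomogeneous 1 := isHomogeneous_X _ _
  fin_cases i <;> fin_cases j <;> first | exact h0 | exact h5 | exact h5.neg

theorem dual_BA (hA : A.IsSymm) (hA' : A'.IsSymm)
    (hd : ∀ (x : Fin 4 → ℂ) (u : Fin 5 → ℂ), ∑ i, ∑ j, eval x (A i j) * eval u (A' i j) +
      ∑ i, eval x (l i) * eval u (l' i) = 0) :
    Dual (BA A) (BA' A') (fun i => r4 (l i)) (fun i => r5 (l' i)) := by
  intro x x'
  have h1 := hd (fun i => x (Fin.castLE (by norm_num) i)) (fun i => x' i.castSucc)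
  have h01 : A 1 0 = A 0 1 := hA.apply 0 1
  have h02 : A 2 0 = A 0 2 := hA.apply 0 2
  have h12 : A 2 1 = A 1 2 := hA.apply 1 2
  have h01' : A' 1 0 = A' 0 1 := hA'.apply 0 1
  have h02' : A' 2 0 = A' 0 2 := hA'.apply 0 2
  have h12' : A' 2 1 = A' 1 2 := hA'.apply 1 2
  simp only [Fin.sum_univ_three, BA, BA', Matrix.add_apply, Matrix.map_apply, Matrix.of_apply,
    Matrix.cons_val', Matrix.cons_val_zero, Matrix.cons_val_one, Matrix.cons_val_two,
    Matrix.head_cons, Matrix.tail_cons, Matrix.empty_val', Matrix.cons_val_fin_one,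
    Matrix.head_fin_const, Matrix.cons_val, h01, h02, h12, h01', h02', h12', map_add, map_neg,
    map_zero, eval_X, eval_r4, eval_r5] at h1 ⊢
  linear_combination h1

end Pool.Agent.Helper69.GE
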