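import Pool.Agent.Helper69.GE.Phi2
import Pool.Agent.Helper15.GE.Final

set_option autoImplicit false

/-!
Project GE (MP_ffd2c1_ag).  Transfer of rationality from an Eckardt cubic fourfold to its Gale dual
with a symplectic involution.
-/

namespace Pool.Agent.Helper69.GE

open MvPolynomial Module Matrix Pool.Agent.Helper16 Pool.Agent.Helper15.GE

/-- the fourfold `F = 0` is rational -/
def Rat (F : MvPolynomial (Fin 6) ℂ) : Prop :=
  Nonempty (FractionRing (MvPolynomial (Fin 5) ℂ ⧸ Ideal.span {dh F}) ≃ₐ[ℂ]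
    FractionRing (MvPolynomial (Fin 4) ℂ))

/-- Let `X : c(x) + a(x) y₀² + 2 b(x) y₀ y₁ + d(x) y₁² = 0` be a smooth cubic fourfold with
`c = det A + l₀ l₁ l₂`, where `A` is a symmetric matrix and `l` a triple of linear forms in
`x ∈ ℂ⁴`, and `(a, b, d) = (A₀₀, A₀₁, A₁₁)`.  Let `A'`, `l'` be linear forms in `u ∈ ℂ⁵` orthogonal to
`A`, `l`.  If the Eckardt cubic `t² A'₂₂ (u) + det A' (u) - l'₀ l'₁ l'₂ (u) = 0` is smooth and rational,
then `X` is rational. -/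
theorem phi2 (A : Matrix (Fin 3) (Fin 3) (MvPolynomial (Fin 4) ℂ)) (hA : A.IsSymm)
    (hA1 : ∀ i j, (A i j).IsHomogeneous 1) (l : Fin 3 → MvPolynomial (Fin 4) ℂ)
    (hl : ∀ i, (l i).IsHomogeneous 1)
    (A' : Matrix (Fin 3) (Fin 3) (MvPolynomial (Fin 5) ℂ)) (hA' : A'.IsSymm)
    (hA1' : ∀ i j, (A' i j).IsHomogeneous 1) (l' : Fin 3 → MvPolynomial (Fin 5) ℂ)
    (hl' : ∀ i, (l' i).IsHomogeneous 1)
    (hd : ∀ (x : Fin 4 → ℂ) (u : Fin 5 → ℂ), ∑ i, ∑ j, eval x (A i j) * eval u (A' i j) +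
      ∑ i, eval x (l i) * eval u (l' i) = 0)
    (F F' : MvPolynomial (Fin 6) ℂ)
    (hF : F = r4 (A.det + l 0 * l 1 * l 2) +
      (r4 (A 0 0) * X 4 ^ 2 + 2 * r4 (A 0 1) * X 4 * X 5 + r4 (A 1 1) * X 5 ^ 2))
    (hF' : F' = r5 (A' 2 2) * X 5 ^ 2 + r5 (A'.det - l' 0 * l' 1 * l' 2))
    (hs : Smooth F) (hs' : Smooth F') (hR : Rat F') : Rat F := by
  rw [← cubicP_BA hA] at hF
  rw [← cubicM_BA' hA'] at hF'
  subst hF hF'
  exact gale_final (lin_BA hA1 hl) (lin_BA' hA1' hl') (dual_BA hA hA' hd) hs hs' hR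

end Pool.Agent.Helper69.GE
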