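import Pool.Agent.Helper69.GE.Phi2

set_option autoImplicit false
set_option linter.unusedSimpArgs false

/-!
Project GE (MP_ffd2c1_ag).  Choice of the first column for cubic fourfolds with a symplectic
involution, and the transfer of rationality from the Gale dual Eckardt cubic.
-/

namespace Pool.Agent.Helper69.GE

open MvPolynomial Module Matrix Pool.Agent.Helper16 Pool.Agent.Helper15.GE

theorem exists_ab {V : Type*} [AddCommGroup V] [Module ℂ V] {p q r s : V}
    (h : LinearIndependent ℂ ![p, q, r]) (hs : s ≠ 0) :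
    ∃ a b : ℂ, (a ≠ 0 ∨ b ≠ 0) ∧ ∀ c0 c1 c3 : ℂ,
      c0 • (a • p + b • q) + c1 • (a • q + b • r) + c3 • s = 0 → c0 = 0 ∧ c1 = 0 ∧ c3 = 0 := by
  have h3 : ∀ x y z : ℂ, x • p + y • q + z • r = 0 → x = 0 ∧ y = 0 ∧ z = 0 := by
    intro x y z hxyz
    have h1 := Fintype.linearIndependent_iff.mp h ![x, y, z] (by
      simpa [Fin.sum_univ_three] using hxyz)
    exact ⟨h1 0, h1 1, h1 2⟩
  by_cases hsp : ∃ α β γ : ℂ, s = α • p + β • q + γ • r
  · obtain ⟨α, β, γ, rfl⟩ := hsp
    have hex : ∃ a b : ℂ, (a ≠ 0 ∨ b ≠ 0) ∧ γ * a ^ 2 - β * a * b + α * b ^ 2 ≠ 0 := by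
      by_cases hγ : γ = 0
      · by_cases hα : α = 0
        · refine ⟨1, 1, Or.inl one_ne_zero, ?_⟩
          have hβ : β ≠ 0 := by
            rintro rfl
            apply hs
            rw [hγ, hα]; simp
          rw [hγ, hα]
          intro h0
          apply hβ
          linear_combination -h0
        · exact ⟨0, 1, Or.inr one_ne_zero, by simpa using hα⟩
      · exact ⟨1, 0, Or.inl one_ne_zero, by simpa using hγ⟩
    obtain ⟨a, b, hab, hne⟩ := hex
    refine ⟨a, b, hab, ?_⟩
    intro c0 c1 c3 hc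
    obtain ⟨e1, e2, e3⟩ := h3 (c0 * a + c3 * α) (c0 * b + c1 * a + c3 * β) (c1 * b + c3 * γ) (by
      rw [← hc]; module)
    have hc3 : c3 = 0 := by
      have h4 : c3 * (γ * a ^ 2 - β * a * b + α * b ^ 2) = 0 := by
        linear_combination a ^ 2 * e3 - a * b * e2 + b ^ 2 * e1
      exact (mul_eq_zero.mp h4).resolve_right hne
    rw [hc3, zero_mul, add_zero] at e1 e2 e3
    rcases hab with ha | hb
    · have hc0 : c0 = 0 := (mul_eq_zero.mp e1).resolve_right ha
      rw [hc0, zero_mul, zero_add] at e2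
      exact ⟨hc0, (mul_eq_zero.mp e2).resolve_right ha, hc3⟩
    · have hc1 : c1 = 0 := (mul_eq_zero.mp e3).resolve_right hb
      rw [hc1, zero_mul, add_zero] at e2
      exact ⟨(mul_eq_zero.mp e2).resolve_right hb, hc1, hc3⟩
  · refine ⟨1, 0, Or.inl one_ne_zero, ?_⟩
    intro c0 c1 c3 hc
    have hc3 : c3 = 0 := by
      by_contra h0
      apply hsp
      refine ⟨-(c3⁻¹ * c0), -(c3⁻¹ * c1), 0, ?_⟩
      have h1 : s = c3⁻¹ • (c0 • ((1 : ℂ) • p + (0 : ℂ) • q) + c1 • ((1 : ℂ) • q + (0 : ℂ) • r) +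
          c3 • s) - (c3⁻¹ * c0) • p - (c3⁻¹ * c1) • q := by
        rw [smul_add, smul_smul c3⁻¹ c3, inv_mul_cancel₀ h0]
        module
      rw [h1, hc]
      module
    rw [hc3, zero_smul, add_zero] at hc
    obtain ⟨e1, e2, -⟩ := h3 c0 c1 0 (by rw [← hc]; module)
    exact ⟨e1, e2, hc3⟩

variable {A : Matrix (Fin 3) (Fin 3) (MvPolynomial (Fin 4) ℂ)} {l : Fin 3 → MvPolynomial (Fin 4) ℂ}
  {A' : Matrix (Fin 3) (Fin 3) (MvPolynomial (Fin 5) ℂ)} {l' : Fin 3 → MvPolynomial (Fin 5) ℂ}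

theorem r4_injective : Function.Injective r4 := by
  rw [r4]
  exact rename_injective _ (Fin.castLE_injective _)

theorem exists_col (hA : A.IsSymm) (h : LinearIndependent ℂ ![A 0 0, A 0 1, A 1 1])
    (h0 : l 0 ≠ 0) : ∃ P Q : Matrix (Fin 3) (Fin 3) ℂ, P.det = 1 ∧ Q.det = 1 ∧ Q * Pᵀ = 1 ∧
      LinearIndependent ℂ ![(BA A * cm P) 0 0, (BA A * cm P) 1 0, (BA A * cm P) 2 0, r4 (l 0)] := by
  obtain ⟨a, b, hab, hli⟩ := exists_ab h h0
  obtain ⟨c, d, hcd⟩ : ∃ c d : ℂ, a * d - c * b = 1 := by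
    by_cases ha : a = 0
    · have hb := hab.resolve_left (fun h => h ha)
      exact ⟨-b⁻¹, 0, by rw [ha]; field_simp; ring⟩
    · exact ⟨0, a⁻¹, by field_simp; ring⟩
  refine ⟨!![a, c, 0; b, d, 0; 0, 0, 1], !![d, -b, 0; -c, a, 0; 0, 0, 1], ?_, ?_, ?_, ?_⟩
  · rw [Matrix.det_fin_three]
    simp
    linear_combination hcd
  · rw [Matrix.det_fin_three]
    simp
    linear_combination hcd
  · ext i j
    fin_cases i <;> fin_cases j <;> simp [Matrix.mul_apply, Fin.sum_univ_three] <;>
      first | linear_combination hcd | ring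
  · have h01 : A 1 0 = A 0 1 := hA.apply 0 1
    have h02 : A 2 0 = A 0 2 := hA.apply 0 2
    have h12 : A 2 1 = A 1 2 := hA.apply 1 2
    have e0 : (BA A * cm !![a, c, 0; b, d, 0; 0, 0, 1]) 0 0 = r4 (a • A 0 0 + b • A 0 1) := by
      rw [map_add, map_smul, map_smul]
      simp only [Matrix.mul_apply, Fin.sum_univ_three, BA, cm, Matrix.add_apply, Matrix.map_apply,
        Matrix.of_apply, Matrix.cons_val', Matrix.cons_val_zero, Matrix.cons_val_one,
        Matrix.cons_val_two, Matrix.head_cons, Matrix.tail_cons, Matrix.empty_val',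
        Matrix.cons_val_fin_one, Matrix.head_fin_const, map_add, map_smul, map_zero,
        smul_eq_C_mul]
      ring
    have e1 : (BA A * cm !![a, c, 0; b, d, 0; 0, 0, 1]) 1 0 = r4 (a • A 0 1 + b • A 1 1) := by
      rw [map_add, map_smul, map_smul]
      simp only [Matrix.mul_apply, Fin.sum_univ_three, BA, cm, Matrix.add_apply, Matrix.map_apply,
        Matrix.of_apply, Matrix.cons_val', Matrix.cons_val_zero, Matrix.cons_val_one,
        Matrix.cons_val_two, Matrix.head_cons, Matrix.tail_cons, Matrix.empty_val',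
        Matrix.cons_val_fin_one, Matrix.head_fin_const, map_add, map_smul, map_zero,
        smul_eq_C_mul, h01]
      ring
    have e2 : (BA A * cm !![a, c, 0; b, d, 0; 0, 0, 1]) 2 0 =
        r4 (a • A 0 2 + b • A 1 2) - a • X 5 + b • X 4 := by
      rw [map_add, map_smul, map_smul]
      simp only [Matrix.mul_apply, Fin.sum_univ_three, BA, cm, Matrix.add_apply, Matrix.map_apply,
        Matrix.of_apply, Matrix.cons_val', Matrix.cons_val_zero, Matrix.cons_val_one,
        Matrix.cons_val_two, Matrix.head_cons, Matrix.tail_cons, Matrix.empty_val',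
        Matrix.cons_val_fin_one, Matrix.head_fin_const, map_add, map_smul, map_zero,
        smul_eq_C_mul, h02, h12]
      ring
    rw [e0, e1, e2]
    obtain ⟨u0, hu0⟩ : ∃ u, u = r4 (a • A 0 0 + b • A 0 1) := ⟨_, rfl⟩
    obtain ⟨u1, hu1⟩ : ∃ u, u = r4 (a • A 0 1 + b • A 1 1) := ⟨_, rfl⟩
    obtain ⟨u2, hu2⟩ : ∃ u, u = r4 (a • A 0 2 + b • A 1 2) := ⟨_, rfl⟩
    obtain ⟨u3, hu3⟩ : ∃ u, u = r4 (l 0) := ⟨_, rfl⟩
    rw [← hu0, ← hu1, ← hu2, ← hu3]
    rw [Fintype.linearIndependent_iff]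
    intro g hg
    rw [Fin.sum_univ_four] at hg
    replace hg : g 0 • u0 + g 1 • u1 + g 2 • (u2 - a • X 5 + b • X 4) + g 3 • u3 = 0 := hg
    -- the coefficient of the third form
    have hd : ∀ (k : Fin 6) (p : MvPolynomial (Fin 4) ℂ), 4 ≤ (k : ℕ) → pderiv k (r4 p) = 0 := by
      intro k p hk
      rw [r4]
      apply pderiv_eq_zero_of_notMem_vars
      intro hm
      have h1 := vars_rename (Fin.castLE (by norm_num : 4 ≤ 6)) p hm
      rw [Finset.mem_image] at h1
      obtain ⟨j, -, hj⟩ := h1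
      have h2 := congrArg Fin.val hj
      rw [Fin.val_castLE] at h2
      have := j.2
      omega
    have k4 : pderiv (4 : Fin 6) (g 2 • (u2 - a • (X 5 : MvPolynomial (Fin 6) ℂ) + b • X 4)) =
        C (g 2 * b) := by
      rw [Derivation.map_smul, map_add, map_sub, Derivation.map_smul, Derivation.map_smul,
        hu2, hd 4 _ (by norm_num), pderiv_X_self, pderiv_X_of_ne (show (5 : Fin 6) ≠ 4 by decide),
        smul_zero, sub_zero, zero_add, smul_smul, smul_eq_C_mul, mul_one]
    have k5 : pderiv (5 : Fin 6) (g 2 • (u2 - a • (X 5 : MvPolynomial (Fin 6) ℂ) + b • X 4)) =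
        - C (g 2 * a) := by
      rw [Derivation.map_smul, map_add, map_sub, Derivation.map_smul, Derivation.map_smul,
        hu2, hd 5 _ (by norm_num), pderiv_X_self, pderiv_X_of_ne (show (4 : Fin 6) ≠ 5 by decide),
        smul_zero, add_zero, zero_sub, smul_neg, smul_smul, smul_eq_C_mul, mul_one]
    have hk : ∀ k : Fin 6, 4 ≤ (k : ℕ) →
        pderiv k (g 2 • (u2 - a • (X 5 : MvPolynomial (Fin 6) ℂ) + b • X 4)) = 0 := by
      intro k hk
      have h4 := congrArg (pderiv k) hg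
      rw [map_add, map_add, map_add, Derivation.map_smul, Derivation.map_smul,
        Derivation.map_smul _ (g 3), hu0, hu1, hu3, hd k _ hk, hd k _ hk, hd k _ hk, smul_zero,
        smul_zero, smul_zero, add_zero, zero_add, zero_add, map_zero] at h4
      exact h4
    have hg2 : g 2 = 0 := by
      have h4 := hk 4 (by norm_num)
      have h5 := hk 5 (by norm_num)
      rw [k4, C_eq_zero] at h4
      rw [k5, neg_eq_zero, C_eq_zero] at h5
      rcases hab with ha | hb
      · exact (mul_eq_zero.mp h5).resolve_right ha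
      · exact (mul_eq_zero.mp h4).resolve_right hb
    rw [hg2, zero_smul, add_zero, hu0, hu1, hu3, ← map_smul, ← map_smul, ← map_smul, ← map_add,
      ← map_add] at hg
    have h6 := r4_injective (hg.trans (map_zero r4).symm)
    obtain ⟨k0, k1, k3⟩ := hli _ _ _ h6
    intro i
    fin_cases i
    · exact k0
    · exact k1
    · exact hg2
    · exact k3

end Pool.Agent.Helper69.GE
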